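import Pool.Agent.Run7.h894.LK.Stm
import Pool.Agent.N537.RS.Log

/-!
# Piece CYL of the project LK of helper894
-/

set_option autoImplicit false

open MeasureTheory Set Filter Topology
open scoped Matrix

namespace Pool.Agent.Run7.h13.LK

open Pool.Agent.Run7.H894.LK
open Pool.Agent.R117.RL
open Pool.Agent.N537.RS

/-- the density of the logarithmic variable -/
noncomputable def dn (k : ℕ) (t : ℝ) : ℝ := sg k * Real.exp ((k : ℝ) * t)

theorem dn_cont (k : ℕ) : Continuous (dn k) := by
  unfold dn
  exact continuous_const.mul (Real.continuous_exp.comp (continuous_const.mul continuous_id))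

theorem dn_nonneg (k : ℕ) (hk : 0 < k) (t : ℝ) : 0 ≤ dn k t :=
  mul_nonneg (sg_pos hk).le (Real.exp_pos _).le

/-- the image of the volume under the logarithm of the norm -/
theorem map_log (k : ℕ) : Measure.map (fun x : E (k + 1) => Real.log ‖x‖) volume =
    (volume : Measure ℝ).withDensity (fun t => ENNReal.ofReal (dn (k + 1) t)) := by
  have hlf : IsLocallyFiniteMeasure
      ((volume : Measure ℝ).withDensity (fun t => ENNReal.ofReal (dn (k + 1) t))) :=
    IsLocallyFiniteMeasure.withDensity_ofReal (dn_cont _)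
  have hm : Measurable (fun x : E (k + 1) => Real.log ‖x‖) :=
    Real.measurable_log.comp measurable_norm
  symm
  apply Real.measure_ext_Ioo_rat
  intro a b
  rw [withDensity_apply _ measurableSet_Ioo, Measure.map_apply hm measurableSet_Ioo]
  have hint : IntegrableOn (dn (k + 1)) (Ioo (a : ℝ) b) :=
    ((dn_cont _).integrableOn_Icc).mono_set Ioo_subset_Icc_self
  rw [← ofReal_integral_eq_lintegral_ofReal hint
    (Eventually.of_forall fun t => dn_nonneg _ (Nat.succ_pos k) t)]
  set S : Set (E (k + 1)) := (fun x : E (k + 1) => Real.log ‖x‖) ⁻¹' Ioo (a : ℝ) b with hS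
  have hSm : MeasurableSet S := hm measurableSet_Ioo
  have hfin : volume S ≠ ⊤ := by
    apply ne_of_lt
    refine lt_of_le_of_lt (measure_mono (t := Metric.closedBall (0 : E (k + 1)) (Real.exp b)) ?_)
      measure_closedBall_lt_top
    intro x hx
    rw [Metric.mem_closedBall, dist_zero_right]
    by_cases h0 : ‖x‖ = 0
    · rw [h0]; exact (Real.exp_pos _).le
    · have h1 : 0 < ‖x‖ := lt_of_le_of_ne (norm_nonneg _) (Ne.symm h0)
      exact ((Real.log_le_iff_le_exp h1).mp hx.2.le)
  have h2 := LO.log_integral (k := k) (fun r : ℝ => (Ioo (a : ℝ) b).indicator (fun _ => (1 : ℝ))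
    (Real.log r))
  have h3 : ∫ x : E (k + 1), (Ioo (a : ℝ) b).indicator (fun _ => (1 : ℝ)) (Real.log ‖x‖) =
      (volume S).toReal := by
    have h4 : (fun x : E (k + 1) => (Ioo (a : ℝ) b).indicator (fun _ => (1 : ℝ)) (Real.log ‖x‖)) =
        S.indicator (fun _ => (1 : ℝ)) := by
      funext x
      simp only [indicator, hS, mem_preimage]
    rw [h4, integral_indicator hSm, setIntegral_const, smul_eq_mul, mul_one]
    rfl
  have h5 : sg (k + 1) • ∫ t : ℝ, Real.exp (((k : ℝ) + 1) * t) •
      (Ioo (a : ℝ) b).indicator (fun _ => (1 : ℝ)) (Real.log (Real.exp t)) =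
      ∫ t in Ioo (a : ℝ) b, dn (k + 1) t := by
    rw [← integral_indicator measurableSet_Ioo, ← integral_smul]
    congr 1
    funext t
    rw [Real.log_exp]
    by_cases ht : t ∈ Ioo (a : ℝ) b
    · rw [indicator_of_mem ht, indicator_of_mem ht, smul_eq_mul, smul_eq_mul, mul_one, dn]
      push_cast
      rfl
    · rw [indicator_of_notMem ht, indicator_of_notMem ht, smul_zero, smul_zero]
  rw [h3, h5] at h2
  rw [← h2, ENNReal.ofReal_toReal hfin]

/-- the image of the volume under `(x, y) ↦ (log |x|, y)` -/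
theorem map_cyl (k m : ℕ) :
    Measure.map (fun p : Sp (k + 1) m => (Real.log ‖p.1‖, p.2)) volume =
      (volume : Measure (ℝ × (Fin m → ℝ))).withDensity
        (fun q => ENNReal.ofReal (dn (k + 1) q.1)) := by
  have hlf : IsLocallyFiniteMeasure
      ((volume : Measure ℝ).withDensity (fun t => ENNReal.ofReal (dn (k + 1) t))) :=
    IsLocallyFiniteMeasure.withDensity_ofReal (dn_cont _)
  have hm : Measurable (fun x : E (k + 1) => Real.log ‖x‖) :=
    Real.measurable_log.comp measurable_norm
  have hd : Measurable (fun t => ENNReal.ofReal (dn (k + 1) t)) :=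
    (dn_cont _).measurable.ennreal_ofReal
  have h1 : Measure.map (fun p : Sp (k + 1) m => (Real.log ‖p.1‖, p.2)) volume =
      ((volume : Measure ℝ).withDensity (fun t => ENNReal.ofReal (dn (k + 1) t))).prod
        (volume : Measure (Fin m → ℝ)) := by
    rw [← map_log]
    have h2 := Measure.map_prod_map (volume : Measure (E (k + 1))) (volume : Measure (Fin m → ℝ))
      hm measurable_id
    rw [Measure.map_id] at h2
    rw [h2]
    rfl
  rw [h1]
  apply Measure.prod_eq
  intro s t hs ht
  rw [withDensity_apply _ (hs.prod ht), withDensity_apply _ hs, Measure.volume_eq_prod,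
    ← Measure.prod_restrict]
  have h3 := lintegral_prod_mul (μ := (volume : Measure ℝ).restrict s)
    (ν := (volume : Measure (Fin m → ℝ)).restrict t)
    (f := fun t => ENNReal.ofReal (dn (k + 1) t)) (g := fun _ => 1)
    hd.aemeasurable aemeasurable_const
  simp only [mul_one, lintegral_const, one_mul, Measure.restrict_apply MeasurableSet.univ,
    univ_inter] at h3
  exact h3

theorem t_CYL : S_CYL := by
  intro k' m hk h hh
  obtain ⟨k, rfl⟩ : ∃ k, k' = k + 1 := ⟨k' - 1, by omega⟩
  have hm : Measurable (fun p : Sp (k + 1) m => (Real.log ‖p.1‖, p.2)) :=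
    (Real.measurable_log.comp (measurable_norm.comp measurable_fst)).prodMk measurable_snd
  set e := (MeasurableEquiv.piFinSuccAbove (fun _ : Fin (m + 1) => ℝ) 0) with he
  have hvp := (volume_preserving_piFinSuccAbove (fun _ : Fin (m + 1) => ℝ) 0)
  set H : ℝ × (Fin m → ℝ) → ℂ := fun q => h (Fin.cons q.1 q.2) with hH
  have hHe : ∀ z, H (e z) = h z := by
    intro z
    change h (Fin.cons (z 0) (fun j : Fin m => z ((0 : Fin (m + 1)).succAbove j))) = h z
    congr 1
    funext i
    refine Fin.cases ?_ (fun j => ?_) i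
    · rfl
    · simp
  have hHm : Measurable H := by
    have h1 : H = h ∘ e.symm := by
      funext q
      have h2 := hHe (e.symm q)
      rw [MeasurableEquiv.apply_symm_apply] at h2
      rw [h2]; rfl
    rw [h1]
    exact hh.comp e.symm.measurable
  have hd : Measurable (fun q : ℝ × (Fin m → ℝ) => ENNReal.ofReal (dn (k + 1) q.1)) :=
    ((dn_cont _).measurable.comp measurable_fst).ennreal_ofReal
  have hsg : sg (k + 1) ≠ 0 := (sg_pos (Nat.succ_pos k)).ne'
  have hden : ∀ z : Fin (m + 1) → ℝ,
      (ENNReal.ofReal (dn (k + 1) (e z).1)).toReal • H (e z) =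
        (sg (k + 1) : ℂ) * ((Real.exp (((k + 1 : ℕ) : ℝ) * z 0) : ℂ) * h z) := by
    intro z
    rw [hHe, ENNReal.toReal_ofReal (dn_nonneg _ (Nat.succ_pos k) _), Complex.real_smul, ← mul_assoc]
    congr 1
    change ((dn (k + 1) (z 0) : ℝ) : ℂ) = _
    rw [dn]
    push_cast
    rfl
  constructor
  · have h1 : Integrable (fun p : Sp (k + 1) m => h (Fin.cons (Real.log ‖p.1‖) p.2)) ↔
        Integrable H (Measure.map (fun p : Sp (k + 1) m => (Real.log ‖p.1‖, p.2)) volume) :=
      (integrable_map_measure hHm.aestronglyMeasurable hm.aemeasurable).symm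
    rw [h1, map_cyl, integrable_withDensity_iff_integrable_smul' hd
      (Eventually.of_forall fun _ => ENNReal.ofReal_lt_top),
      ← hvp.integrable_comp_emb (MeasurableEquiv.measurableEmbedding _)]
    have h2 : ((fun q : ℝ × (Fin m → ℝ) => (ENNReal.ofReal (dn (k + 1) q.1)).toReal • H q) ∘ e) =
        fun z => (sg (k + 1) : ℂ) * ((Real.exp (((k + 1 : ℕ) : ℝ) * z 0) : ℂ) * h z) :=
      funext hden
    rw [← he, h2]
    have hsgc : ((sg (k + 1) : ℝ) : ℂ) ≠ 0 := by exact_mod_cast hsg
    exact integrable_const_mul_iff (IsUnit.mk0 _ hsgc) _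
  · have h1 : ∫ p : Sp (k + 1) m, h (Fin.cons (Real.log ‖p.1‖) p.2) =
        ∫ q, H q ∂(Measure.map (fun p : Sp (k + 1) m => (Real.log ‖p.1‖, p.2)) volume) :=
      (integral_map hm.aemeasurable hHm.aestronglyMeasurable).symm
    rw [h1, map_cyl, integral_withDensity_eq_integral_toReal_smul hd
      (Eventually.of_forall fun _ => ENNReal.ofReal_lt_top), ← hvp.integral_comp',
      ← integral_const_mul]
    exact integral_congr_ae (Eventually.of_forall hden)

end Pool.Agent.Run7.h13.LK
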