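import Pool.Agent.Run7.h894.LK.Stm
import Pool.Agent.Helper717.LT.P_specP

/-!
# Piece LAR of the project LK of helper894
-/

set_option autoImplicit false

open MeasureTheory Set Filter Topology
open scoped Matrix

namespace Pool.Agent.Run7.h13.LK

open Pool.Agent.Run7.H894.LK
open LTd (Mat)

theorem bf_lin {n N : ℕ} (M : Mat n) (v : Fin N → Fin n → ℝ) (c d : Fin N → ℝ) :
    bf M (fun k => ∑ a, c a * v a k) (fun k => ∑ a, d a * v a k) =
      ∑ a, ∑ b, c a * d b * bf M (v a) (v b) := by
  unfold bf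
  calc ∑ i, ∑ j, (∑ a, c a * v a i) * (∑ a, d a * v a j) * M i j
      = ∑ i, ∑ j, ∑ a, ∑ b, c a * d b * (v a i * v b j * M i j) := by
        refine Finset.sum_congr rfl fun i _ => Finset.sum_congr rfl fun j _ => ?_
        rw [Finset.sum_mul_sum, Finset.sum_mul]
        refine Finset.sum_congr rfl fun a _ => ?_
        rw [Finset.sum_mul]
        refine Finset.sum_congr rfl fun b _ => ?_
        ring
    _ = ∑ i, ∑ a, ∑ j, ∑ b, c a * d b * (v a i * v b j * M i j) :=
        Finset.sum_congr rfl fun i _ => Finset.sum_comm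
    _ = ∑ a, ∑ i, ∑ j, ∑ b, c a * d b * (v a i * v b j * M i j) := Finset.sum_comm
    _ = ∑ a, ∑ i, ∑ b, ∑ j, c a * d b * (v a i * v b j * M i j) :=
        Finset.sum_congr rfl fun a _ => Finset.sum_congr rfl fun i _ => Finset.sum_comm
    _ = ∑ a, ∑ b, ∑ i, ∑ j, c a * d b * (v a i * v b j * M i j) :=
        Finset.sum_congr rfl fun a _ => Finset.sum_comm
    _ = _ := by
        refine Finset.sum_congr rfl fun a _ => Finset.sum_congr rfl fun b _ => ?_
        rw [Finset.mul_sum]
        refine Finset.sum_congr rfl fun i _ => ?_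
        rw [Finset.mul_sum]

theorem bf_symm {n : ℕ} {M : Mat n} (hM : ∀ i j, M i j = M j i) (u v : Fin n → ℝ) :
    bf M u v = bf M v u := by
  unfold bf
  rw [Finset.sum_comm]
  refine Finset.sum_congr rfl fun i _ => Finset.sum_congr rfl fun j _ => ?_
  rw [hM j i]; ring

theorem bf_nonneg {n : ℕ} {M : Mat n} (hM : Pos M) (v : Fin n → ℝ) : 0 ≤ bf M v v := by
  by_cases h : v = 0
  · subst h; simp [bf]
  · exact (hM.2 v h).le

theorem bf_smul {n : ℕ} (M : Mat n) (s t : ℝ) (u v : Fin n → ℝ) :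
    bf M (fun k => s * u k) (fun k => t * v k) = s * t * bf M u v := by
  unfold bf
  rw [Finset.mul_sum]
  refine Finset.sum_congr rfl fun i _ => ?_
  rw [Finset.mul_sum]
  refine Finset.sum_congr rfl fun j _ => ?_
  ring

/-- The passage from a family with Gram matrix at most `1` to an orthonormal family. -/
theorem core {n N : ℕ} (M K : Mat n) (hM : Pos M) (v : Fin N → Fin n → ℝ)
    (hv : ∀ c : Fin N → ℝ, ∑ a, ∑ b, c a * c b * bf M (v a) (v b) ≤ ∑ a, c a ^ 2) :
    ∃ (N' : ℕ) (v' : Fin N' → Fin n → ℝ),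
      (∀ a b, bf M (v' a) (v' b) = if a = b then (1 : ℝ) else 0) ∧
      ∑ a, bf K (v a) (v a) ≤ ∑ a, bf K (v' a) (v' a) := by
  classical
  obtain ⟨O, r, hO, hO', hr, hG⟩ := LTd.specP
    (M := (Matrix.of fun a b => bf M (v a) (v b) : Mat N))
    ⟨fun a b => bf_symm hM.1 _ _, fun c => by
      have h1 := bf_nonneg hM (fun k => ∑ a, c a * v a k)
      rw [bf_lin] at h1
      exact h1⟩
  set u : Fin N → Fin n → ℝ := fun i k => ∑ a, O a i * v a k with hu
  have hMu : ∀ i j, bf M (u i) (u j) = if i = j then r i else 0 := by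
    intro i j
    rw [hu]
    simp only
    rw [bf_lin M v (fun a => O a i) (fun a => O a j)]
    have h1 : Oᵀ * (Matrix.of fun a b => bf M (v a) (v b) : Mat N) * O = Matrix.diagonal r := by
      rw [hG]
      calc Oᵀ * (O * Matrix.diagonal r * Oᵀ) * O
          = (Oᵀ * O) * Matrix.diagonal r * (Oᵀ * O) := by simp only [Matrix.mul_assoc]
        _ = Matrix.diagonal r := by rw [hO']; simp
    have h2 : (Oᵀ * (Matrix.of fun a b => bf M (v a) (v b) : Mat N) * O) i j =
        if i = j then r i else 0 := by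
      rw [h1, Matrix.diagonal_apply]
    rw [← h2]
    simp only [Matrix.mul_apply, Matrix.transpose_apply, Matrix.of_apply, Finset.sum_mul]
    rw [Finset.sum_comm]
    refine Finset.sum_congr rfl fun b _ => Finset.sum_congr rfl fun a _ => ?_
    ring
  have hr1 : ∀ i, r i ≤ 1 := by
    intro i
    have h1 := hMu i i
    rw [if_pos rfl, hu] at h1
    simp only at h1
    rw [bf_lin M v (fun a => O a i) (fun a => O a i)] at h1
    have h2 := hv (fun a => O a i)
    have h3 : ∑ a, O a i ^ 2 = (1 : ℝ) := by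
      have h4 : (Oᵀ * O) i i = 1 := by rw [hO']; simp
      rw [Matrix.mul_apply] at h4
      rw [← h4]
      refine Finset.sum_congr rfl fun a _ => ?_
      rw [Matrix.transpose_apply]; ring
    rw [h1, h3] at h2
    exact h2
  have hKu : ∑ i, bf K (u i) (u i) = ∑ a, bf K (v a) (v a) := by
    have h1 : ∀ i, bf K (u i) (u i) = ∑ a, ∑ b, O a i * O b i * bf K (v a) (v b) := fun i =>
      bf_lin K v (fun a => O a i) (fun a => O a i)
    simp only [h1]
    rw [Finset.sum_comm]
    refine Finset.sum_congr rfl fun a _ => ?_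
    rw [Finset.sum_comm]
    have h2 : ∀ b, ∑ i, O a i * O b i * bf K (v a) (v b) =
        (if a = b then 1 else 0) * bf K (v a) (v b) := by
      intro b
      rw [← Finset.sum_mul]
      congr 1
      have h4 : (O * Oᵀ) a b = if a = b then 1 else 0 := by rw [hO, Matrix.one_apply]
      rw [Matrix.mul_apply] at h4
      rw [← h4]
      refine Finset.sum_congr rfl fun a _ => ?_
      rw [Matrix.transpose_apply]
    simp only [h2]
    simp
  set w : Fin N → Fin n → ℝ := fun i k => (√(r i))⁻¹ * u i k with hw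
  have hMw : ∀ i j, bf M (w i) (w j) = (√(r i))⁻¹ * (√(r j))⁻¹ * bf M (u i) (u j) := fun i j =>
    bf_smul M _ _ _ _
  have hKw : ∀ i, bf K (w i) (w i) = (√(r i))⁻¹ * (√(r i))⁻¹ * bf K (u i) (u i) := fun i =>
    bf_smul K _ _ _ _
  let T := {i : Fin N // 0 < r i ∧ 0 < bf K (w i) (w i)}
  let e : T ≃ Fin (Fintype.card T) := Fintype.equivFin T
  refine ⟨Fintype.card T, fun a => w (e.symm a).1, ?_, ?_⟩
  · intro a b
    rw [hMw, hMu]
    have hpos := (e.symm a).2.1
    by_cases hab : a = b
    · subst hab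
      rw [if_pos rfl, if_pos rfl]
      have h5 : √(r (e.symm a).1) ≠ 0 := (Real.sqrt_pos.mpr hpos).ne'
      have h6 := Real.mul_self_sqrt hpos.le
      field_simp
      rw [sq, h6]
    · rw [if_neg hab, if_neg (fun h => hab (e.symm.injective (Subtype.ext h))), mul_zero]
  · rw [← hKu]
    have h1 : ∑ a, bf K (w (e.symm a).1) (w (e.symm a).1) =
        ∑ t : T, bf K (w t.1) (w t.1) :=
      Equiv.sum_comp e.symm (fun t : T => bf K (w t.1) (w t.1))
    rw [h1]
    have h2 : ∑ t : T, bf K (w t.1) (w t.1) =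
        ∑ i ∈ Finset.univ.filter (fun i => 0 < r i ∧ 0 < bf K (w i) (w i)), bf K (w i) (w i) := by
      symm
      apply Finset.sum_subtype
      intro x
      simp
    rw [h2, Finset.sum_filter]
    refine Finset.sum_le_sum fun i _ => ?_
    rcases (hr i).lt_or_eq with hi | hi
    · have h5 : √(r i) ≠ 0 := (Real.sqrt_pos.mpr hi).ne'
      have h6 := Real.mul_self_sqrt hi.le
      have h7 : bf K (u i) (u i) = r i * bf K (w i) (w i) := by
        rw [hKw]
        field_simp
        rw [sq, h6]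
      by_cases hX : 0 < bf K (w i) (w i)
      · rw [if_pos ⟨hi, hX⟩, h7]
        nlinarith [hr1 i]
      · rw [if_neg (fun h => hX h.2), h7]
        push Not at hX
        exact mul_nonpos_of_nonneg_of_nonpos hi.le hX
    · have h8 : u i = 0 := by
        by_contra hne
        have := hM.2 (u i) hne
        rw [hMu, if_pos rfl, ← hi] at this
        exact lt_irrefl _ this
      rw [h8, if_neg (fun h => by rw [← hi] at h; exact lt_irrefl _ h.1)]
      simp [bf]

theorem bf_K {n : ℕ} (A : Mat n) (c : ℝ) (v : Fin n → ℝ) :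
    bf (-A - c • (1 : Mat n)) v v = -(bf A v v) - c * ∑ i, v i ^ 2 := by
  unfold bf
  have h1 : ∀ i j, v i * v j * (-A - c • (1 : Mat n)) i j =
      -(v i * v j * A i j) - (if i = j then c * (v i * v j) else 0) := by
    intro i j
    rw [Matrix.sub_apply, Matrix.neg_apply, Matrix.smul_apply, Matrix.one_apply, smul_eq_mul]
    split_ifs <;> ring
  simp only [h1, Finset.sum_sub_distrib, Finset.sum_neg_distrib, Finset.sum_ite_eq,
    Finset.mem_univ, if_true, Finset.mul_sum]
  congr 1
  exact Finset.sum_congr rfl fun i _ => by ring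

theorem t_LAR (h : S_LAR1) : S_LAR := by
  intro k hk n A M hA hM Λ g N hg v hv Ψ hΨ
  have key : ∀ l, ∃ (N' : ℕ) (v' : Fin N' → Fin n → ℝ), l ∈ Λ →
      (∀ a b, bf M (v' a) (v' b) = if a = b then (1 : ℝ) else 0) ∧
      ∑ a, bf (-A - (nu k l ^ 2) • (1 : Mat n)) (v l a) (v l a) ≤
        ∑ a, bf (-A - (nu k l ^ 2) • (1 : Mat n)) (v' a) (v' a) := by
    intro l
    by_cases hl : l ∈ Λ
    · obtain ⟨N', v', h1, h2⟩ := core M (-A - (nu k l ^ 2) • (1 : Mat n)) hM (v l) (hv l hl)
      exact ⟨N', v', fun _ => ⟨h1, h2⟩⟩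
    · exact ⟨0, fun a => Fin.elim0 a, fun h => absurd h hl⟩
  choose N' v' h' using key
  refine le_trans (ENNReal.ofReal_le_ofReal ?_)
    (h k hk n A M hA hM Λ g N' hg v' (fun l hl => (h' l hl).1) Ψ hΨ)
  refine Finset.sum_le_sum fun l hl => mul_le_mul_of_nonneg_left ?_ (Nat.cast_nonneg _)
  have h2 := (h' l hl).2
  simp only [bf_K, Finset.sum_sub_distrib, Finset.sum_neg_distrib, ← Finset.mul_sum] at h2
  exact h2

end Pool.Agent.Run7.h13.LK
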